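import Pool.Agent.H76.GU.Targets
import Pool.Agent.H34.GM.HAC

/-!
Row OMG of the board gu (page H76_GUR.md): a weight for the block diagonal group which is invariant
under the unipotent group (helper55).
-/

set_option autoImplicit false

namespace Pool.Agent.H55.GV

open MeasureTheory Set Filter Topology
open Pool.Agent.H34.GM Pool.Agent.H34.GZ Pool.Agent.H34.GU Pool.Agent.H76.GU

theorem om_fin {α : Type} (n : ℕ) (g : Fin n → α → ENNReal) :
    ∑' j : Fin n → α, ∏ i, g i (j i) = ∏ i, ∑' a : α, g i a := by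
  induction n with
  | zero => simp
  | succ n ih =>
    rw [← (Fin.consEquiv (fun _ : Fin (n + 1) => α)).tsum_eq, ENNReal.tsum_prod', Fin.prod_univ_succ]
    have h : ∀ a : α, ∑' b : Fin n → α, ∏ i, g i ((Fin.consEquiv (fun _ : Fin (n + 1) => α)) (a, b) i)
        = g 0 a * ∏ i : Fin n, ∑' a : α, g i.succ a := by
      intro a
      rw [← ih, ← ENNReal.tsum_mul_left]
      refine tsum_congr fun b => ?_
      rw [Fin.prod_univ_succ]
      simp [Fin.consEquiv]
    rw [tsum_congr h, ENNReal.tsum_mul_right]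

theorem om_int {c : ℝ} (hc : 0 < c) :
    ∑' n : ℤ, ENNReal.ofReal (Real.exp (-c * (n : ℝ) ^ 2)) < ⊤ := by
  have h1 : Summable fun n : ℕ => Real.exp (-c * ((n : ℤ) : ℝ) ^ 2) := by
    refine Summable.of_nonneg_of_le (fun n => (Real.exp_pos _).le) (fun n => ?_)
      (summable_geometric_of_lt_one (Real.exp_pos (-c)).le (by rw [Real.exp_lt_one_iff]; linarith))
    rw [← Real.exp_nat_mul]
    refine Real.exp_le_exp.2 ?_
    have h2 : (n : ℝ) ≤ (n : ℝ) ^ 2 := by
      have : n ≤ n ^ 2 := Nat.le_self_pow (by norm_num) n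
      exact_mod_cast this
    push_cast
    nlinarith
  have h : Summable fun n : ℤ => Real.exp (-c * (n : ℝ) ^ 2) := by
    refine Summable.of_nat_of_neg h1 ?_
    refine h1.congr fun n => ?_
    push_cast
    rw [neg_sq]
  rw [← ENNReal.ofReal_tsum_of_nonneg (fun n => (Real.exp_pos _).le) h]
  exact ENNReal.ofReal_lt_top

/-- the square of the Frobenius norm -/
noncomputable def om_n {m : ℕ} (A : Mat m) : ℝ := ∑ i, ∑ j, (A i j) ^ 2

theorem om_n0 {m : ℕ} (A : Mat m) : 0 ≤ om_n A :=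
  Finset.sum_nonneg fun _ _ => Finset.sum_nonneg fun _ _ => sq_nonneg _

theorem om_mul {m : ℕ} (A B : Mat m) : om_n (A * B) ≤ om_n A * om_n B := by
  unfold om_n
  rw [Finset.sum_mul]
  refine Finset.sum_le_sum fun i _ => ?_
  rw [Finset.sum_comm (f := fun i j => B i j ^ 2), Finset.mul_sum]
  refine Finset.sum_le_sum fun j _ => ?_
  rw [Matrix.mul_apply]
  exact Finset.sum_mul_sq_le_sq_mul_sq _ _ _

/-- the Gaussian sum over the integer matrices -/
theorem om_zm {m : ℕ} {c : ℝ} (hc : 0 < c) :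
    ∑' X : ZM m, ENNReal.ofReal (Real.exp (-c * om_n (cR X))) < ⊤ := by
  have h1 : ∀ X : ZM m, ENNReal.ofReal (Real.exp (-c * om_n (cR X))) =
      ∏ i, ∏ j, ENNReal.ofReal (Real.exp (-c * ((X i j : ℤ) : ℝ) ^ 2)) := by
    intro X
    unfold om_n
    rw [Finset.mul_sum, Real.exp_sum, ENNReal.ofReal_prod_of_nonneg
      (fun i _ => (Real.exp_pos _).le)]
    refine Finset.prod_congr rfl fun i _ => ?_
    rw [Finset.mul_sum, Real.exp_sum, ENNReal.ofReal_prod_of_nonneg
      (fun i _ => (Real.exp_pos _).le)]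
    rfl
  simp only [h1]
  have h2 := om_fin m (fun (_ : Fin m) (y : Fin m → ℤ) =>
    ∏ j, ENNReal.ofReal (Real.exp (-c * ((y j : ℤ) : ℝ) ^ 2)))
  have h3 := om_fin m (fun (_ : Fin m) (n : ℤ) => ENNReal.ofReal (Real.exp (-c * (n : ℝ) ^ 2)))
  have h4 : ∑' X : ZM m, ∏ i, ∏ j, ENNReal.ofReal (Real.exp (-c * ((X i j : ℤ) : ℝ) ^ 2)) =
      ∏ i : Fin m, ∑' y : Fin m → ℤ,
        ∏ j, ENNReal.ofReal (Real.exp (-c * ((y j : ℤ) : ℝ) ^ 2)) := h2
  rw [h4]
  refine ENNReal.prod_lt_top fun i _ => ?_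
  rw [h3]
  exact ENNReal.prod_lt_top fun j _ => om_int hc

/-- the rows before `k` -/
def om_t {m : ℕ} {R : Type} [Zero R] (k : ℕ) (A : Matrix (Fin m) (Fin m) R) :
    Matrix (Fin m) (Fin m) R := Matrix.of fun i j => if (i : ℕ) < k then A i j else 0

/-- the columns from `k` on -/
def om_r {m : ℕ} {R : Type} [Zero R] (k : ℕ) (A : Matrix (Fin m) (Fin m) R) :
    Matrix (Fin m) (Fin m) R := Matrix.of fun i j => if k ≤ (j : ℕ) then A i j else 0

theorem om_tmul {m : ℕ} {R : Type} [CommRing R] (k : ℕ) (A B : Matrix (Fin m) (Fin m) R) :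
    om_t k (A * B) = om_t k A * B := by
  ext i j
  simp only [om_t, Matrix.of_apply, Matrix.mul_apply]
  split_ifs with h
  · rfl
  · simp

theorem om_rmul {m : ℕ} {R : Type} [CommRing R] (k : ℕ) (A B : Matrix (Fin m) (Fin m) R) :
    om_r k (A * B) = A * om_r k B := by
  ext i j
  simp only [om_r, Matrix.of_apply, Matrix.mul_apply]
  split_ifs with h
  · rfl
  · simp

theorem om_tR {m : ℕ} (k : ℕ) (A : ZM m) : om_t k (cR A) = cR (om_t k A) := by
  ext i j
  simp only [om_t, cR, Matrix.of_apply, Matrix.map_apply]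
  split_ifs <;> simp

theorem om_rR {m : ℕ} (k : ℕ) (A : ZM m) : om_r k (cR A) = cR (om_r k A) := by
  ext i j
  simp only [om_r, cR, Matrix.of_apply, Matrix.map_apply]
  split_ifs <;> simp

/-- the weight -/
noncomputable def om_w {m : ℕ} (k : ℕ) (z : V m) : ENNReal :=
  ENNReal.ofReal (Real.exp (-om_n (om_t k (mt z)) - om_n (om_r k (mt z)⁻¹)))

theorem om_meas {m : ℕ} (k : ℕ) : Measurable (om_w k : V m → ENNReal) := by
  have hi := hac_meas_inv (m := m)
  refine ENNReal.measurable_ofReal.comp (Real.measurable_exp.comp (Measurable.sub ?_ ?_))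
  · refine Measurable.neg ?_
    unfold om_n
    refine Finset.measurable_sum _ fun i _ => Finset.measurable_sum _ fun j _ => ?_
    simp only [om_t, Matrix.of_apply]
    by_cases h : (i : ℕ) < k
    · simp only [h, if_true]
      exact (((measurable_pi_apply j).comp (measurable_pi_apply i)).pow_const 2)
    · simp only [h, if_false]
      exact measurable_const
  · unfold om_n
    refine Finset.measurable_sum _ fun i _ => Finset.measurable_sum _ fun j _ => ?_
    simp only [om_r, Matrix.of_apply]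
    by_cases h : k ≤ (j : ℕ)
    · simp only [h, if_true]
      exact (((measurable_pi_apply j).comp ((measurable_pi_apply i).comp hi)).pow_const 2)
    · simp only [h, if_false]
      exact measurable_const

theorem om_nk2 {m : ℕ} (k : ℕ) (u : V m) : nk k u * nk k u = (0 : Mat m) := by
  ext i j
  rw [Matrix.mul_apply, Matrix.zero_apply]
  refine Finset.sum_eq_zero fun l _ => ?_
  simp only [nk, Matrix.of_apply]
  by_cases h1 : (l : ℕ) < k ∧ k ≤ (i : ℕ)
  · have h2 : ¬ ((j : ℕ) < k ∧ k ≤ (l : ℕ)) := by omega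
    rw [if_neg h2, mul_zero]
  · rw [if_neg h1, zero_mul]

theorem om_inv {m : ℕ} (k : ℕ) (z u : V m) (hz : (mt z).det ≠ 0) :
    om_w k (lm (1 + nk k u) z) = om_w k z := by
  have e0 : mt (lm (1 + nk k u) z) = (1 + nk k u) * mt z := rfl
  have e1 : om_t k ((1 + nk k u) * mt z) = om_t k (mt z) := by
    rw [om_tmul]
    have : om_t k (1 + nk k u) = om_t k (1 : Mat m) := by
      ext i j
      simp only [om_t, Matrix.of_apply, Matrix.add_apply, nk]
      split_ifs with h1 h2
      · omega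
      · rw [add_zero]
      · rfl
    rw [this, ← om_tmul, one_mul]
  have hzz : mt z * (mt z)⁻¹ = 1 := Matrix.mul_nonsing_inv _ (isUnit_iff_ne_zero.2 hz)
  have e2 : ((1 + nk k u) * mt z)⁻¹ = (mt z)⁻¹ * (1 - nk k u) := by
    refine Matrix.inv_eq_right_inv ?_
    calc (1 + nk k u) * mt z * ((mt z)⁻¹ * (1 - nk k u)) =
          (1 + nk k u) * (mt z * (mt z)⁻¹) * (1 - nk k u) := by
            simp only [Matrix.mul_assoc]
      _ = (1 + nk k u) * (1 - nk k u) := by rw [hzz, mul_one]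
      _ = 1 - nk k u * nk k u := by noncomm_ring
      _ = 1 := by rw [om_nk2, sub_zero]
  have e3 : om_r k ((mt z)⁻¹ * (1 - nk k u)) = om_r k (mt z)⁻¹ := by
    rw [om_rmul]
    have : om_r k (1 - nk k u) = om_r k (1 : Mat m) := by
      ext i j
      simp only [om_r, Matrix.of_apply, Matrix.sub_apply, nk]
      split_ifs with h1 h2
      · omega
      · rw [sub_zero]
      · rfl
    rw [this, ← om_rmul, mul_one]
  unfold om_w
  rw [e0, e1, e2, e3]

theorem om_low {m : ℕ} {c : ℝ} (A Z W : Mat m) (hZ : A = Z * W) (hc : c = (1 + om_n W)⁻¹) :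
    c * om_n A ≤ om_n Z := by
  have h1 : om_n A ≤ om_n Z * om_n W := by
    rw [hZ]
    exact om_mul _ _
  have h2 := om_n0 W
  have h3 := om_n0 Z
  rw [hc, inv_mul_le_iff₀ (by linarith)]
  nlinarith

theorem om_low' {m : ℕ} {c : ℝ} (A Z W : Mat m) (hZ : A = W * Z) (hc : c = (1 + om_n W)⁻¹) :
    c * om_n A ≤ om_n Z := by
  have h1 : om_n A ≤ om_n W * om_n Z := by
    rw [hZ]
    exact om_mul _ _
  have h2 := om_n0 W
  have h3 := om_n0 Z
  rw [hc, inv_mul_le_iff₀ (by linarith)]
  nlinarith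

theorem om_qinv {m : ℕ} {k : ℕ} {q : ZM m} (hq : InQ k q) (i j : Fin m) (hi : k ≤ (i : ℕ))
    (hj : (j : ℕ) < k) : q⁻¹ i j = 0 := by
  classical
  set P : ZM m := Matrix.diagonal fun l => if (l : ℕ) < k then 1 else 0 with hP
  have hqu : IsUnit q.det := (Matrix.isUnit_iff_isUnit_det _).1 hq.1
  have hcom : q * P = P * q := by
    ext a b
    rw [hP, Matrix.mul_diagonal, Matrix.diagonal_mul]
    by_cases ha : (a : ℕ) < k
    · by_cases hb : (b : ℕ) < k
      · simp [ha, hb]
      · rw [hq.2 a b (Or.inl ⟨ha, not_lt.1 hb⟩)]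
        simp
    · by_cases hb : (b : ℕ) < k
      · rw [hq.2 a b (Or.inr ⟨hb, not_lt.1 ha⟩)]
        simp
      · simp [ha, hb]
  have h1 : P * q⁻¹ = q⁻¹ * P := by
    calc P * q⁻¹ = (q⁻¹ * q) * (P * q⁻¹) := by rw [Matrix.nonsing_inv_mul _ hqu, one_mul]
      _ = q⁻¹ * (q * P) * q⁻¹ := by simp only [Matrix.mul_assoc]
      _ = q⁻¹ * (P * q) * q⁻¹ := by rw [hcom]
      _ = q⁻¹ * P * (q * q⁻¹) := by simp only [Matrix.mul_assoc]
      _ = q⁻¹ * P := by rw [Matrix.mul_nonsing_inv _ hqu, mul_one]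
  have h2 := congrFun (congrFun h1 i) j
  rw [hP, Matrix.diagonal_mul, Matrix.mul_diagonal, if_neg (not_lt.2 hi), if_pos hj] at h2
  linarith

theorem om_inj {m : ℕ} (k : ℕ) : Function.Injective
    (fun q : {q : ZM m // InQ k q} => (om_t k q.1, om_r k (q.1)⁻¹)) := by
  rintro ⟨q, hq⟩ ⟨p, hp⟩ h
  simp only [Prod.mk.injEq] at h
  obtain ⟨h1, h2⟩ := h
  have hqu : IsUnit q.det := (Matrix.isUnit_iff_isUnit_det _).1 hq.1
  have hpu : IsUnit p.det := (Matrix.isUnit_iff_isUnit_det _).1 hp.1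
  have e1 : om_t k (q * p⁻¹) = om_t k (1 : ZM m) := by
    rw [om_tmul, h1, ← om_tmul, Matrix.mul_nonsing_inv _ hpu]
  have e2 : om_r k (q * p⁻¹) = om_r k (1 : ZM m) := by
    rw [om_rmul, ← h2, ← om_rmul, Matrix.mul_nonsing_inv _ hqu]
  have e3 : q * p⁻¹ = 1 := by
    ext i j
    by_cases hi : (i : ℕ) < k
    · have := congrFun (congrFun e1 i) j
      simpa only [om_t, Matrix.of_apply, hi, if_true] using this
    · by_cases hj : k ≤ (j : ℕ)
      · have := congrFun (congrFun e2 i) j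
        simpa only [om_r, Matrix.of_apply, hj, if_true] using this
      · have hij : i ≠ j := by
          rintro rfl
          omega
        rw [Matrix.one_apply_ne hij, Matrix.mul_apply]
        refine Finset.sum_eq_zero fun l _ => ?_
        by_cases hl : (l : ℕ) < k
        · rw [hq.2 i l (Or.inr ⟨hl, not_lt.1 hi⟩), zero_mul]
        · rw [om_qinv hp l j (not_lt.1 hl) (not_le.1 hj), mul_zero]
  have e4 : q = p := by
    calc q = q * (p⁻¹ * p) := by rw [Matrix.nonsing_inv_mul _ hpu, mul_one]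
      _ = (q * p⁻¹) * p := by rw [Matrix.mul_assoc]
      _ = p := by rw [e3, one_mul]
  exact Subtype.ext e4

theorem om_cRmul {m : ℕ} (A B : ZM m) : cR (A * B) = cR A * cR B := by
  ext i j
  simp [cR, Matrix.mul_apply, Matrix.map_apply]

theorem om_cR1 {m : ℕ} : cR (1 : ZM m) = 1 := by
  ext i j
  by_cases h : i = j
  · subst h
    simp [cR]
  · simp [cR, Matrix.one_apply_ne h]

theorem pf_OMG : T_OMG := by
  intro m k _
  refine ⟨om_w k, om_meas k, fun z u hz => om_inv k z u hz, fun z hz => ⟨?_, ?_⟩⟩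
  · intro h0
    rw [ENNReal.tsum_eq_zero] at h0
    have h1 : InQ k (1 : ZM m) := by
      refine ⟨isUnit_one, fun i j hij => ?_⟩
      refine Matrix.one_apply_ne ?_
      rintro rfl
      omega
    have h2 := h0 ⟨1, h1⟩
    unfold om_w at h2
    rw [ENNReal.ofReal_eq_zero] at h2
    exact absurd h2 (not_le.2 (Real.exp_pos _))
  · have hzz : mt z * (mt z)⁻¹ = 1 := Matrix.mul_nonsing_inv _ (isUnit_iff_ne_zero.2 hz)
    set c : ℝ := (1 + om_n (mt z)⁻¹)⁻¹ with hc
    set c' : ℝ := (1 + om_n (mt z))⁻¹ with hc'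
    have hcp : 0 < c := by
      have := om_n0 (mt z)⁻¹
      positivity
    have hcp' : 0 < c' := by
      have := om_n0 (mt z)
      positivity
    refine ne_of_lt ?_
    calc ∑' q : {q : ZM m // InQ k q}, om_w k (lm (cR q.1) z)
        ≤ ∑' q : {q : ZM m // InQ k q}, (fun p : ZM m × ZM m =>
          ENNReal.ofReal (Real.exp (-c * om_n (cR p.1))) *
            ENNReal.ofReal (Real.exp (-c' * om_n (cR p.2)))) (om_t k q.1, om_r k (q.1)⁻¹) := by
          refine ENNReal.tsum_le_tsum fun q => ?_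
          obtain ⟨q, hq⟩ := q
          have hqu : IsUnit q.det := (Matrix.isUnit_iff_isUnit_det _).1 hq.1
          have e0 : mt (lm (cR q) z) = cR q * mt z := rfl
          have e1 : (cR q)⁻¹ = cR q⁻¹ := by
            refine Matrix.inv_eq_right_inv ?_
            rw [← om_cRmul, Matrix.mul_nonsing_inv _ hqu, om_cR1]
          show om_w k (lm (cR q) z) ≤ ENNReal.ofReal (Real.exp (-c * om_n (cR (om_t k q)))) *
            ENNReal.ofReal (Real.exp (-c' * om_n (cR (om_r k q⁻¹))))
          unfold om_w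
          rw [e0, ← ENNReal.ofReal_mul (Real.exp_pos _).le, ← Real.exp_add]
          refine ENNReal.ofReal_le_ofReal (Real.exp_le_exp.2 ?_)
          rw [om_tmul, Matrix.mul_inv_rev, e1, om_rmul, om_tR, om_rR]
          have h1 : c * om_n (cR (om_t k q)) ≤ om_n (cR (om_t k q) * mt z) := by
            refine om_low _ _ (mt z)⁻¹ ?_ hc
            rw [Matrix.mul_assoc, hzz, mul_one]
          have h2 : c' * om_n (cR (om_r k q⁻¹)) ≤ om_n ((mt z)⁻¹ * cR (om_r k q⁻¹)) := by
            refine om_low' _ _ (mt z) ?_ hc'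
            rw [← Matrix.mul_assoc, hzz, one_mul]
          linarith
      _ ≤ ∑' p : ZM m × ZM m, ENNReal.ofReal (Real.exp (-c * om_n (cR p.1))) *
            ENNReal.ofReal (Real.exp (-c' * om_n (cR p.2))) :=
          ENNReal.tsum_comp_le_tsum_of_injective (om_inj k) _
      _ = (∑' X : ZM m, ENNReal.ofReal (Real.exp (-c * om_n (cR X)))) *
            ∑' Y : ZM m, ENNReal.ofReal (Real.exp (-c' * om_n (cR Y))) := by
          rw [ENNReal.tsum_prod']
          simp only [ENNReal.tsum_mul_left, ENNReal.tsum_mul_right]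
      _ < ⊤ := ENNReal.mul_lt_top (om_zm hcp) (om_zm hcp')

end Pool.Agent.H55.GV
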